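import Mathlib

set_option autoImplicit false

/-! # Cells modulo a large prime built from the Ruzsa Sidon set -/

namespace Pool.Agent.H54.Sidon

open Finset

lemma coprime_pred (p : ℕ) (hp : 1 ≤ p) : (p - 1).Coprime p := by
  obtain ⟨m, rfl⟩ : ∃ m, p = m + 1 := ⟨p - 1, by omega⟩
  simp

/-- The Ruzsa set: `c i ≡ i` modulo `p - 1` and `c i ≡ g ^ i` modulo `p`. -/
lemma exists_ruzsa (p : ℕ) [hp : Fact p.Prime] :
    ∃ c : Fin (p - 1) → ℕ, (∀ i, c i < p * (p - 1)) ∧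
      ∀ i j k l : Fin (p - 1), c i + c j ≡ c k + c l [MOD p * (p - 1)] →
        (i = k ∧ j = l) ∨ (i = l ∧ j = k) := by
  have hp1 : 1 < p := hp.out.one_lt
  obtain ⟨g, hg⟩ := IsCyclic.exists_generator (α := (ZMod p)ˣ)
  have hord : orderOf g = p - 1 := by
    rw [orderOf_eq_card_of_forall_mem_zpowers hg, Nat.card_eq_fintype_card, ZMod.card_units]
  have hco := coprime_pred p hp1.le
  let c : Fin (p - 1) → ℕ := fun i => Nat.chineseRemainder hco i (((g ^ (i : ℕ) : (ZMod p)ˣ) : ZMod p)).val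
  have hc1 : ∀ i, c i ≡ i [MOD p - 1] := fun i => (Nat.chineseRemainder hco i _).2.1
  have hc2 : ∀ i, ((c i : ℕ) : ZMod p) = ((g ^ (i : ℕ) : (ZMod p)ˣ) : ZMod p) := by
    intro i
    have h := (Nat.chineseRemainder hco i (((g ^ (i : ℕ) : (ZMod p)ˣ) : ZMod p)).val).2.2
    have h2 := (ZMod.natCast_eq_natCast_iff _ _ _).2 h
    rw [ZMod.natCast_zmod_val] at h2
    exact h2
  refine ⟨c, fun i => ?_, ?_⟩
  · rw [mul_comm]
    exact Nat.chineseRemainder_lt_mul hco _ _ (by omega) (by omega)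
  · intro i j k l h
    have hm1 : c i + c j ≡ c k + c l [MOD p - 1] := h.of_mul_left p
    have hm2 : c i + c j ≡ c k + c l [MOD p] := h.of_mul_right (p - 1)
    have e1 : (i : ℕ) + j ≡ k + l [MOD p - 1] :=
      ((hc1 i).add (hc1 j)).symm.trans (hm1.trans ((hc1 k).add (hc1 l)))
    have e2 : ((g ^ (i : ℕ) : (ZMod p)ˣ) : ZMod p) + ((g ^ (j : ℕ) : (ZMod p)ˣ) : ZMod p) =
        ((g ^ (k : ℕ) : (ZMod p)ˣ) : ZMod p) + ((g ^ (l : ℕ) : (ZMod p)ˣ) : ZMod p) := by
      rw [← hc2, ← hc2, ← hc2, ← hc2, ← Nat.cast_add, ← Nat.cast_add]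
      exact (ZMod.natCast_eq_natCast_iff _ _ _).2 hm2
    have e3 : g ^ (i : ℕ) * g ^ (j : ℕ) = g ^ (k : ℕ) * g ^ (l : ℕ) := by
      rw [← pow_add, ← pow_add]
      exact pow_eq_pow_iff_modEq.2 (by rw [hord]; exact e1)
    have e4 : ((g ^ (i : ℕ) : (ZMod p)ˣ) : ZMod p) * ((g ^ (j : ℕ) : (ZMod p)ˣ) : ZMod p) =
        ((g ^ (k : ℕ) : (ZMod p)ˣ) : ZMod p) * ((g ^ (l : ℕ) : (ZMod p)ˣ) : ZMod p) := by
      exact_mod_cast congrArg (fun z : (ZMod p)ˣ => (z : ZMod p)) e3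
    have hinj : ∀ a b : Fin (p - 1),
        ((g ^ (a : ℕ) : (ZMod p)ˣ) : ZMod p) = ((g ^ (b : ℕ) : (ZMod p)ˣ) : ZMod p) → a = b := by
      intro a b hab
      have h1 : g ^ (a : ℕ) = g ^ (b : ℕ) := Units.ext hab
      have h2 := pow_eq_pow_iff_modEq.1 h1
      rw [hord] at h2
      have h3 : (a : ℕ) % (p - 1) = (b : ℕ) % (p - 1) := h2
      rw [Nat.mod_eq_of_lt a.2, Nat.mod_eq_of_lt b.2] at h3
      exact Fin.ext h3
    have e5 : (((g ^ (i : ℕ) : (ZMod p)ˣ) : ZMod p) - ((g ^ (k : ℕ) : (ZMod p)ˣ) : ZMod p)) *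
        (((g ^ (i : ℕ) : (ZMod p)ˣ) : ZMod p) - ((g ^ (l : ℕ) : (ZMod p)ˣ) : ZMod p)) = 0 := by
      linear_combination ((g ^ (i : ℕ) : (ZMod p)ˣ) : ZMod p) * e2 - e4
    rcases mul_eq_zero.1 e5 with h5 | h5
    · left
      have h6 := hinj i k (sub_eq_zero.1 h5)
      refine ⟨h6, hinj j l ?_⟩
      rw [h6] at e2
      exact add_left_cancel e2
    · right
      have h6 := hinj i l (sub_eq_zero.1 h5)
      refine ⟨h6, hinj j k ?_⟩
      rw [h6, add_comm] at e2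
      exact add_right_cancel e2

/-- Cells modulo a large prime with the Sidon property. -/
lemma exists_cells (p : ℕ) [hp : Fact p.Prime] (B : ℕ) :
    ∃ P L : ℕ, P.Prime ∧ B < P ∧ P = 2 * (p * (p - 1)) * L + 1 ∧
      ∃ C : Fin (p - 1) → Finset (ZMod P), (∀ s, (C s).card = L) ∧
        ∀ i j k l : Fin (p - 1), ∀ x ∈ C i, ∀ y ∈ C j, ∀ x' ∈ C k, ∀ y' ∈ C l,
          x + y = x' + y' → (i = k ∧ j = l) ∨ (i = l ∧ j = k) := by
  obtain ⟨c, hc, hcs⟩ := exists_ruzsa p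
  have hp1 : 1 < p := hp.out.one_lt
  set N := p * (p - 1) with hN
  have hN0 : 0 < N := Nat.mul_pos (by omega) (by omega)
  obtain ⟨P, hP, hBP, hmod⟩ := Nat.exists_prime_gt_modEq_one (k := 2 * N) B (by omega)
  haveI : Fact P.Prime := ⟨hP⟩
  have h1 : 1 ≤ P := hP.one_lt.le
  obtain ⟨L, hL⟩ : 2 * N ∣ P - 1 := (Nat.modEq_iff_dvd' h1).1 hmod.symm
  have hPL : P = 2 * N * L + 1 := by omega
  refine ⟨P, L, hP, hBP, hPL, fun s => (range L).image fun j => ((c s + N * j : ℕ) : ZMod P),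
    ?_, ?_⟩
  · intro s
    rw [card_image_of_injOn, card_range]
    intro a ha b hb hab
    rw [mem_coe, mem_range] at ha hb
    have hlt : ∀ j, j < L → c s + N * j < P := by
      intro j hj
      have h2 := hc s
      have h3 : N * (j + 1) ≤ N * L := Nat.mul_le_mul_left _ hj
      have h4 : 2 * N * L = N * L + N * L := by ring
      have h5 : N * (j + 1) = N * j + N := by ring
      omega
    have h2 := (ZMod.natCast_eq_natCast_iff' _ _ _).1 hab
    rw [Nat.mod_eq_of_lt (hlt a ha), Nat.mod_eq_of_lt (hlt b hb)] at h2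
    have h3 : N * a = N * b := by omega
    exact Nat.eq_of_mul_eq_mul_left hN0 h3
  · intro i j k l x hx y hy x' hx' y' hy' h
    simp only [mem_image, mem_range] at hx hy hx' hy'
    obtain ⟨a, ha, rfl⟩ := hx
    obtain ⟨b, hb, rfl⟩ := hy
    obtain ⟨a', ha', rfl⟩ := hx'
    obtain ⟨b', hb', rfl⟩ := hy'
    have hlt : ∀ (s : Fin (p - 1)) (j : ℕ), j < L → c s + N * j < N * L := by
      intro s j hj
      have h2 := hc s
      have h3 : N * (j + 1) ≤ N * L := Nat.mul_le_mul_left _ hj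
      have h5 : N * (j + 1) = N * j + N := by ring
      omega
    have l1 := hlt i a ha
    have l2 := hlt j b hb
    have l3 := hlt k a' ha'
    have l4 := hlt l b' hb'
    have h4 : 2 * N * L = N * L + N * L := by ring
    rw [← Nat.cast_add, ← Nat.cast_add] at h
    have h2 := (ZMod.natCast_eq_natCast_iff' _ _ _).1 h
    rw [Nat.mod_eq_of_lt (by omega), Nat.mod_eq_of_lt (by omega)] at h2
    apply hcs i j k l
    have m1 : ∀ (s : Fin (p - 1)) (j : ℕ), c s + N * j ≡ c s [MOD N] := by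
      intro s j
      show (c s + N * j) % N = c s % N
      exact Nat.add_mul_mod_self_left _ _ _
    calc c i + c j ≡ (c i + N * a) + (c j + N * b) [MOD N] := ((m1 i a).add (m1 j b)).symm
      _ = (c k + N * a') + (c l + N * b') := h2
      _ ≡ c k + c l [MOD N] := (m1 k a').add (m1 l b')

end Pool.Agent.H54.Sidon
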