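import Mathlib

namespace Pool.Agent.H54.Sidon

open Finset

section

variable {P : ℕ} [Fact P.Prime]

lemma card_one (C : Finset (ZMod P)) (u : ZMod P) :
    #{w : ZMod P × ZMod P | w.1 * u + w.2 ∈ C} = P * C.card := by
  classical
  have : ({w : ZMod P × ZMod P | w.1 * u + w.2 ∈ C} : Finset (ZMod P × ZMod P)) =
      ((univ : Finset (ZMod P)) ×ˢ C).image (fun q => (q.1, q.2 - q.1 * u)) := by
    ext ⟨t, b⟩
    simp only [mem_filter, mem_univ, true_and, mem_image, mem_product, Prod.mk.injEq, Prod.exists]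
    constructor
    · intro h
      exact ⟨t, t * u + b, h, rfl, by ring⟩
    · rintro ⟨t', y, hy, rfl, rfl⟩
      have : t' * u + (y - t' * u) = y := by ring
      rwa [this]
  rw [this, Finset.card_image_of_injective, Finset.card_product, Finset.card_univ, ZMod.card]
  rintro ⟨t, y⟩ ⟨t', y'⟩ h
  simp only [Prod.mk.injEq] at h
  obtain ⟨rfl, h⟩ := h
  have : y = y' := by
    have := congrArg (fun z => z + t * u) h
    simpa using this
  rw [this]

lemma card_two (C : Finset (ZMod P)) {u v : ZMod P} (huv : u ≠ v) :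
    #{w : ZMod P × ZMod P | w.1 * u + w.2 ∈ C ∧ w.1 * v + w.2 ∈ C} = C.card * C.card := by
  classical
  have huv' : u - v ≠ 0 := sub_ne_zero.2 huv
  rw [← Finset.card_product]
  apply Finset.card_bij (fun w _ => (w.1 * u + w.2, w.1 * v + w.2))
  · intro w hw
    rw [mem_filter] at hw
    exact Finset.mem_product.2 hw.2
  · rintro ⟨t, b⟩ _ ⟨t', b'⟩ _ h
    simp only [Prod.mk.injEq] at h
    have h1 : (t - t') * (u - v) = 0 := by linear_combination h.1 - h.2
    have h2 : t = t' := by
      rcases mul_eq_zero.1 h1 with h | h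
      · exact sub_eq_zero.1 h
      · exact absurd h huv'
    subst h2
    have h3 : b = b' := by
      have := h.1
      exact add_left_cancel this
    rw [h3]
  · rintro ⟨y, z⟩ hyz
    rw [Finset.mem_product] at hyz
    refine ⟨((y - z) / (u - v), y - (y - z) / (u - v) * u), ?_, ?_⟩
    · rw [mem_filter]
      refine ⟨mem_univ _, ?_, ?_⟩
      · simpa using hyz.1
      · have : (y - z) / (u - v) * v + (y - (y - z) / (u - v) * u) = z := by
          field_simp
          ring
        simp only [this]; exact hyz.2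
    · have : (y - z) / (u - v) * v + (y - (y - z) / (u - v) * u) = z := by
        field_simp
        ring
      simp [this]

variable {n : ℕ}

/-- number of points in a cell -/
def X (u : Fin n → ZMod P) (C : Finset (ZMod P)) (w : ZMod P × ZMod P) : ℕ :=
  #{i : Fin n | w.1 * u i + w.2 ∈ C}

lemma sum_X (u : Fin n → ZMod P) (C : Finset (ZMod P)) :
    ∑ w : ZMod P × ZMod P, (X u C w : ℝ) = n * (P * C.card) := by
  have h1 : ∀ w : ZMod P × ZMod P, (X u C w : ℝ) =
      ∑ i : Fin n, (if w.1 * u i + w.2 ∈ C then (1 : ℝ) else 0) := by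
    intro w
    rw [X, card_filter]; push_cast; rfl
  rw [Finset.sum_congr rfl (fun w _ => h1 w), Finset.sum_comm]
  have h2 : ∀ i : Fin n, ∑ w : ZMod P × ZMod P, (if w.1 * u i + w.2 ∈ C then (1 : ℝ) else 0) =
      P * C.card := by
    intro i
    have := card_one C (u i)
    rw [card_filter] at this
    have h3 := congrArg (fun z : ℕ => (z : ℝ)) this
    push_cast at h3
    exact h3
  rw [Finset.sum_congr rfl (fun i _ => h2 i)]
  simp

lemma sum_X_sq {u : Fin n → ZMod P} (hu : Function.Injective u) (C : Finset (ZMod P)) :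
    ∑ w : ZMod P × ZMod P, (X u C w : ℝ) ^ 2 ≤ n * (P * C.card) + n ^ 2 * (C.card) ^ 2 := by
  have h1 : ∀ w : ZMod P × ZMod P, (X u C w : ℝ) ^ 2 =
      ∑ i : Fin n, ∑ j : Fin n, (if w.1 * u i + w.2 ∈ C ∧ w.1 * u j + w.2 ∈ C then (1 : ℝ) else 0) := by
    intro w
    have e : (X u C w : ℝ) = ∑ i : Fin n, (if w.1 * u i + w.2 ∈ C then (1 : ℝ) else 0) := by
      rw [X, card_filter]; push_cast; rfl
    rw [e, sq, Finset.sum_mul_sum]
    apply Finset.sum_congr rfl; intro i _
    apply Finset.sum_congr rfl; intro j _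
    by_cases h1 : w.1 * u i + w.2 ∈ C <;> by_cases h2 : w.1 * u j + w.2 ∈ C <;> simp [h1, h2]
  rw [Finset.sum_congr rfl (fun w _ => h1 w), Finset.sum_comm]
  have h2 : ∀ i : Fin n, ∑ w : ZMod P × ZMod P, ∑ j : Fin n,
      (if w.1 * u i + w.2 ∈ C ∧ w.1 * u j + w.2 ∈ C then (1 : ℝ) else 0) ≤
      P * C.card + n * (C.card) ^ 2 := by
    intro i
    rw [Finset.sum_comm]
    have h3 : ∀ j : Fin n, ∑ w : ZMod P × ZMod P,
        (if w.1 * u i + w.2 ∈ C ∧ w.1 * u j + w.2 ∈ C then (1 : ℝ) else 0) ≤
        (if i = j then (P * C.card : ℝ) else 0) + (C.card) ^ 2 := by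
      intro j
      by_cases hij : i = j
      · subst hij
        have := card_one C (u i)
        rw [card_filter] at this
        have h3 := congrArg (fun z : ℕ => (z : ℝ)) this
        push_cast at h3
        simp only [and_self, if_true]
        rw [h3]
        have : (0 : ℝ) ≤ (C.card : ℝ) ^ 2 := by positivity
        linarith
      · have := card_two C (fun h => hij (hu h) : u i ≠ u j)
        rw [card_filter] at this
        have h3 := congrArg (fun z : ℕ => (z : ℝ)) this
        push_cast at h3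
        rw [h3]
        simp only [hij, if_false]
        rw [zero_add, sq]
    refine (Finset.sum_le_sum (fun j _ => h3 j)).trans ?_
    rw [Finset.sum_add_distrib]
    simp
  refine (Finset.sum_le_sum (fun i _ => h2 i)).trans ?_
  rw [Finset.sum_const, Finset.card_univ, Fintype.card_fin, nsmul_eq_mul]
  apply le_of_eq
  ring

/-- there is an affine map for which many cells are hit -/
lemma exists_hits {q L : ℕ} {u : Fin n → ZMod P} (hu : Function.Injective u)
    (C : Fin q → Finset (ZMod P)) (hC : ∀ s, (C s).card = L) {α β : ℝ} (hβ : 0 ≤ β)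
    (hαβ : ∀ x : ℕ, (α + β) * x - β * (x : ℝ) ^ 2 ≤ (if 0 < x then 1 else 0)) :
    ∃ w : ZMod P × ZMod P,
      q * (α * (n * L / P) - β * (n * L / P : ℝ) ^ 2) ≤ (#{s : Fin q | 0 < X u (C s) w} : ℝ) := by
  by_contra hcon
  push Not at hcon
  have hP : (0 : ℝ) < P := by exact_mod_cast (Fact.out : P.Prime).pos
  have h1 : ∑ w : ZMod P × ZMod P, (#{s : Fin q | 0 < X u (C s) w} : ℝ) <
      ∑ _w : ZMod P × ZMod P, q * (α * (n * L / P) - β * (n * L / P : ℝ) ^ 2) :=
    Finset.sum_lt_sum_of_nonempty ⟨(0, 0), mem_univ _⟩ (fun w _ => hcon w)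
  have h2 : ∑ _w : ZMod P × ZMod P, q * (α * (n * L / P) - β * (n * L / P : ℝ) ^ 2) =
      q * (α * n * L * P - β * n ^ 2 * L ^ 2) := by
    rw [Finset.sum_const, Finset.card_univ, Fintype.card_prod, ZMod.card, nsmul_eq_mul]
    push_cast
    field_simp
  have h3 : q * (α * n * L * P - β * n ^ 2 * L ^ 2) ≤
      ∑ w : ZMod P × ZMod P, (#{s : Fin q | 0 < X u (C s) w} : ℝ) := by
    have e1 : ∀ w : ZMod P × ZMod P, ∑ s : Fin q, ((α + β) * (X u (C s) w : ℝ) - β * (X u (C s) w : ℝ) ^ 2)
        ≤ (#{s : Fin q | 0 < X u (C s) w} : ℝ) := by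
      intro w
      rw [card_filter]
      push_cast
      exact Finset.sum_le_sum (fun s _ => hαβ _)
    refine le_trans ?_ (Finset.sum_le_sum (fun w _ => e1 w))
    rw [Finset.sum_comm]
    have e2 : ∀ s : Fin q, α * n * L * P - β * n ^ 2 * L ^ 2 ≤
        ∑ w : ZMod P × ZMod P, ((α + β) * (X u (C s) w : ℝ) - β * (X u (C s) w : ℝ) ^ 2) := by
      intro s
      rw [Finset.sum_sub_distrib, ← Finset.mul_sum, ← Finset.mul_sum, sum_X, hC s]
      have := sum_X_sq hu (C s)
      rw [hC s] at this
      have h4 := mul_le_mul_of_nonneg_left this hβ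
      linarith
    refine le_trans ?_ (Finset.sum_le_sum (fun s _ => e2 s))
    rw [Finset.sum_const, Finset.card_univ, Fintype.card_fin, nsmul_eq_mul]
  rw [h2] at h1
  linarith

end

end Pool.Agent.H54.Sidon
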