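import Pool.Agent.H54.Sidon.Select

set_option autoImplicit false

/-! # Every set of `(8 + ε) k²` reals has `k` points with distinct distances -/

namespace Pool.Agent.H54.Sidon

open Finset

lemma coef_one (x : ℕ) :
    ((1 : ℝ) + 1 / 2) * x - 1 / 2 * (x : ℝ) ^ 2 ≤ (if 0 < x then 1 else 0) := by
  rcases x with _ | _ | x
  · simp
  · norm_num
  · rw [if_pos (by omega)]
    push_cast
    have : (0 : ℝ) ≤ x := Nat.cast_nonneg x
    nlinarith

lemma coef_two (x : ℕ) :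
    ((2 : ℝ) / 3 + 1 / 6) * x - 1 / 6 * (x : ℝ) ^ 2 ≤ (if 0 < x then 1 else 0) := by
  rcases x with _ | _ | _ | x
  · simp
  · norm_num
  · norm_num
  · rw [if_pos (by omega)]
    push_cast
    have : (0 : ℝ) ≤ x := Nat.cast_nonneg x
    nlinarith

/-- The numerical heart: a good selection for one prime. -/
lemma select_prime (p : ℕ) [hp : Fact p.Prime] (S : Finset ℝ)
    (h1 : 2 / 5 ≤ (S.card : ℝ) / (2 * p * (p - 1)))
    (h2 : (S.card : ℝ) / (2 * p * (p - 1)) ≤ 169 / 100) :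
    ∃ T ⊆ S, DistinctDist T ∧ ∃ y : ℝ, 0 ≤ y ∧ y - 1 / 2 ≤ T.card ∧
      (S.card : ℝ) * (p - 1) ≤ 8 * p * y ^ 2 := by
  have hp1 : (1 : ℝ) < p := by exact_mod_cast hp.out.one_lt
  set μ : ℝ := (S.card : ℝ) / (2 * p * (p - 1)) with hμ
  have hn : (S.card : ℝ) = 2 * p * (p - 1) * μ := by
    rw [hμ]
    have : (p : ℝ) - 1 ≠ 0 := by linarith
    field_simp
  have hp0 : (0 : ℝ) < p - 1 := by linarith
  -- it suffices to have `μ ≤ 4 φ²`
  have key : ∀ φ : ℝ, μ ≤ 4 * φ ^ 2 →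
      (S.card : ℝ) * (p - 1) ≤ 8 * p * (((p : ℝ) - 1) * φ) ^ 2 := by
    intro φ hφ
    rw [hn]
    have : 0 ≤ 2 * (p : ℝ) * (p - 1) ^ 2 := by positivity
    nlinarith [mul_le_mul_of_nonneg_left hφ this]
  rcases le_or_gt μ 1 with hμ1 | hμ1
  · obtain ⟨T, hT, hTd, hTc⟩ := select p S (α := 1) (β := 1 / 2) le_rfl (by norm_num) coef_one
    refine ⟨T, hT, hTd, ((p : ℝ) - 1) * (1 * μ - 1 / 2 * μ ^ 2), ?_, hTc, key _ ?_⟩
    · have : 0 ≤ 1 * μ - 1 / 2 * μ ^ 2 := by nlinarith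
      positivity
    · have e1 : 4 * (1 * μ - 1 / 2 * μ ^ 2) ^ 2 - μ = μ * ((1 - μ) * (-(μ ^ 2 - 3 * μ + 1))) := by
        ring
      have e2 : 0 ≤ -(μ ^ 2 - 3 * μ + 1) := by nlinarith
      have e3 : 0 ≤ μ * ((1 - μ) * (-(μ ^ 2 - 3 * μ + 1))) :=
        mul_nonneg (by linarith) (mul_nonneg (by linarith) e2)
      linarith
  · obtain ⟨T, hT, hTd, hTc⟩ := select p S (α := 2 / 3) (β := 1 / 6) (by norm_num) (by norm_num)
      coef_two
    refine ⟨T, hT, hTd, ((p : ℝ) - 1) * (2 / 3 * μ - 1 / 6 * μ ^ 2), ?_, hTc, key _ ?_⟩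
    · have : 0 ≤ 2 / 3 * μ - 1 / 6 * μ ^ 2 := by nlinarith
      positivity
    · have e1 : 4 * (2 / 3 * μ - 1 / 6 * μ ^ 2) ^ 2 - μ = μ * ((μ - 1) * (μ ^ 2 - 7 * μ + 9)) / 9 := by
        ring
      have e2 : 0 ≤ μ ^ 2 - 7 * μ + 9 := by nlinarith
      have e3 : 0 ≤ μ * ((μ - 1) * (μ ^ 2 - 7 * μ + 9)) :=
        mul_nonneg (by linarith) (mul_nonneg (by linarith) e2)
      linarith

theorem main (ε : ℝ) (hε : 0 < ε) : ∃ K : ℕ, ∀ k : ℕ, K ≤ k → ∀ S : Finset ℝ,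
    (8 + ε) * (k : ℝ) ^ 2 ≤ S.card → ∃ T ⊆ S, T.card = k ∧ DistinctDist T := by
  refine ⟨max 73 ⌈(8 + ε) / ε⌉₊, fun k hk S hS => ?_⟩
  have hk1 : 73 ≤ k := (le_max_left _ _).trans hk
  have hk2 : (8 + ε) / ε ≤ k := (Nat.le_ceil _).trans (by exact_mod_cast (le_max_right _ _).trans hk)
  have hk1' : (73 : ℝ) ≤ k := by exact_mod_cast hk1
  set n := S.card with hn
  set x := Nat.sqrt (3 * n / 10) with hx
  have hx1 : x * x ≤ 3 * n / 10 := Nat.sqrt_le _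
  have hx2 : 3 * n / 10 < (x + 1) * (x + 1) := Nat.lt_succ_sqrt _
  have hx3 : 10 * (x * x) ≤ 3 * n := by omega
  have hx4 : 3 * n < 10 * ((x + 1) * (x + 1)) := by omega
  have hx3' : 10 * ((x : ℝ) * x) ≤ 3 * n := by exact_mod_cast hx3
  have hx4' : 3 * (n : ℝ) < 10 * (((x : ℝ) + 1) * (x + 1)) := by exact_mod_cast hx4
  have hkx : (k : ℝ) < x + 1 := by
    by_contra hcon
    push Not at hcon
    have h0 : (0 : ℝ) ≤ x := Nat.cast_nonneg x
    have h1 : ((x : ℝ) + 1) * (x + 1) ≤ k * k := mul_le_mul hcon hcon (by linarith) (by linarith)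
    nlinarith
  have hkx' : k ≤ x := by
    have : k < x + 1 := by exact_mod_cast hkx
    omega
  obtain ⟨p, hp, hxp, hp2x⟩ := Nat.exists_prime_lt_and_le_two_mul x (by omega)
  have : Fact p.Prime := ⟨hp⟩
  have hxp' : (x : ℝ) + 1 ≤ p := by exact_mod_cast hxp
  have hp2x' : (p : ℝ) ≤ 2 * x := by exact_mod_cast hp2x
  have hx72 : (73 : ℝ) ≤ x := by
    have : (k : ℝ) ≤ x := by exact_mod_cast hkx'
    linarith
  have hp0 : (0 : ℝ) < p - 1 := by linarith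
  have hpp : (0 : ℝ) < 2 * p * (p - 1) := by
    have : (0 : ℝ) < p := by linarith
    positivity
  obtain ⟨T, hT, hTd, y, hy0, hyT, hy⟩ := select_prime p S (by
    rw [le_div_iff₀ hpp]
    have : (p : ℝ) * (p - 1) ≤ 2 * x * (2 * x) := mul_le_mul hp2x' (by linarith) hp0.le (by linarith)
    nlinarith) (by
    rw [div_le_iff₀ hpp]
    have : ((x : ℝ) + 1) * x ≤ p * (p - 1) := mul_le_mul hxp' (by linarith) (by linarith) (by linarith)
    have h4 : 10 * (((x : ℝ) + 1) * (x + 1)) ≤ 10 * (1014 / 1000 * ((x + 1) * x)) := by nlinarith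
    nlinarith)
  -- `k ≤ y`
  have hpk : (8 + ε) ≤ ε * p := by
    have h1 : (8 + ε) ≤ k * ε := (div_le_iff₀ hε).1 hk2
    have h2 : (k : ℝ) ≤ p := by linarith
    nlinarith
  have hky : (k : ℝ) ≤ y := by
    have h1 : (8 + ε) * (k : ℝ) ^ 2 * (p - 1) ≤ 8 * p * y ^ 2 :=
      (mul_le_mul_of_nonneg_right hS hp0.le).trans hy
    have h2 : 8 * p ≤ (8 + ε) * ((p : ℝ) - 1) := by nlinarith
    have h3 : 8 * p * (k : ℝ) ^ 2 ≤ 8 * p * y ^ 2 := by
      have := mul_le_mul_of_nonneg_right h2 (sq_nonneg (k : ℝ))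
      nlinarith
    have h4 : (k : ℝ) ^ 2 ≤ y ^ 2 := by
      have hp8 : (0 : ℝ) < 8 * p := by linarith
      exact le_of_mul_le_mul_left h3 hp8
    exact le_of_sq_le_sq h4 hy0
  have hkT : k ≤ T.card := by
    have h1 : (k : ℝ) < T.card + 1 := by linarith
    have h2 : k < T.card + 1 := by exact_mod_cast h1
    omega
  obtain ⟨T', hT', hT'c⟩ := exists_subset_card_eq hkT
  exact ⟨T', hT'.trans hT, hT'c, hTd.mono hT'⟩

end Pool.Agent.H54.Sidon
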