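import Pool.Agent.H11.NW.Pnt

set_option autoImplicit false

/-! # Primes in short intervals, from the prime number theorem -/

namespace Pool.Agent.H54.Sidon

open Finset Filter Topology

/-- For every `δ > 0` there is a prime in `(x, (1 + δ) x]` for all large `x`. -/
theorem exists_prime_near (δ : ℝ) (hδ : 0 < δ) (hδ1 : δ ≤ 1) :
    ∃ X : ℝ, ∀ x : ℝ, X ≤ x → ∃ p : ℕ, p.Prime ∧ x < p ∧ (p : ℝ) ≤ (1 + δ) * x := by
  have ht := Pool.Agent.H11.NW.theta_div_tendsto
  have h1 : ∀ᶠ n : ℕ in atTop, |Chebyshev.theta (n : ℝ) / n - 1| < δ / 8 := by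
    have := (Metric.tendsto_atTop.1 ht) (δ / 8) (by positivity)
    obtain ⟨N, hN⟩ := this
    filter_upwards [eventually_ge_atTop N] with n hn
    have := hN n hn
    rwa [Real.dist_eq] at this
  obtain ⟨N, hN⟩ := eventually_atTop.1 h1
  refine ⟨max (N + 1) (3 / δ), fun x hx => ?_⟩
  have hx1 : (N : ℝ) + 1 ≤ x := (le_max_left _ _).trans hx
  have hx2 : 3 / δ ≤ x := (le_max_right _ _).trans hx
  have hx0 : 0 < x := lt_of_lt_of_le (by positivity) hx2
  have hx3 : 3 ≤ x * δ := (div_le_iff₀ hδ).1 hx2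
  set a := ⌊x⌋₊ with ha
  set b := ⌊(1 + δ) * x⌋₊ with hb
  have hax : (a : ℝ) ≤ x := Nat.floor_le hx0.le
  have hxa : x < a + 1 := Nat.lt_floor_add_one x
  have hbx : (b : ℝ) ≤ (1 + δ) * x := Nat.floor_le (by positivity)
  have hxb : (1 + δ) * x < b + 1 := Nat.lt_floor_add_one _
  have haN : N ≤ a := by
    have : (N : ℝ) < a + 1 := by linarith
    have : N < a + 1 := by exact_mod_cast this
    omega
  have hab : a ≤ b := Nat.floor_le_floor (by nlinarith)
  have ha0 : (0 : ℝ) < a := by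
    have : (0 : ℝ) < x - 1 := by
      have : (0 : ℝ) ≤ N := Nat.cast_nonneg N
      nlinarith
    linarith
  have hb0 : (0 : ℝ) < b := lt_of_lt_of_le ha0 (by exact_mod_cast hab)
  have e1 := abs_lt.1 (hN a haN)
  have e2 := abs_lt.1 (hN b (haN.trans hab))
  have e3 : Chebyshev.theta (a : ℝ) < (1 + δ / 8) * a := by
    have : Chebyshev.theta (a : ℝ) / a < 1 + δ / 8 := by linarith [e1.2]
    rwa [div_lt_iff₀ ha0] at this
  have e4 : (1 - δ / 8) * b < Chebyshev.theta (b : ℝ) := by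
    have : 1 - δ / 8 < Chebyshev.theta (b : ℝ) / b := by linarith [e2.1]
    rwa [lt_div_iff₀ hb0] at this
  have e5 : (1 + δ / 8) * (a : ℝ) < (1 - δ / 8) * b := by
    have h6 : (1 + δ / 8) * (a : ℝ) ≤ (1 + δ / 8) * x := mul_le_mul_of_nonneg_left hax (by positivity)
    have h7 : (1 - δ / 8) * ((1 + δ) * x - 1) ≤ (1 - δ / 8) * b :=
      mul_le_mul_of_nonneg_left (by linarith) (by linarith)
    have h8 : (1 + δ / 8) * x < (1 - δ / 8) * ((1 + δ) * x - 1) := by nlinarith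
    linarith
  have e6 := Pool.Agent.H11.NW.theta_sub a b hab
  have e7 : 0 < ∑ p ∈ (Ioc a b).filter Nat.Prime, Real.log p := by
    rw [← e6]; linarith
  obtain ⟨p, hp, -⟩ := Finset.exists_ne_zero_of_sum_ne_zero (ne_of_gt e7)
  rw [mem_filter, mem_Ioc] at hp
  refine ⟨p, hp.2, ?_, ?_⟩
  · exact (Nat.floor_lt hx0.le).1 hp.1.1
  · exact (by exact_mod_cast hp.1.2 : (p : ℝ) ≤ b).trans hbx

end Pool.Agent.H54.Sidon
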