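import Pool.Agent.H54.Sidon.Count
import Pool.Agent.H54.Sidon.Cells

set_option autoImplicit false

/-! # Selection of points with distinct distances -/

namespace Pool.Agent.H54.Sidon

open Finset

/-- All distances between the points of `T` are distinct. -/
def DistinctDist (T : Finset ℝ) : Prop :=
  ∀ a ∈ T, ∀ b ∈ T, ∀ c ∈ T, ∀ d ∈ T, a ≠ b → c ≠ d →
    |a - b| = |c - d| → ((a = c ∧ b = d) ∨ (a = d ∧ b = c))

lemma DistinctDist.mono {T T' : Finset ℝ} (h : DistinctDist T) (hT : T' ⊆ T) : DistinctDist T' :=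
  fun a ha b hb c hc d hd => h a (hT ha) b (hT hb) c (hT hc) d (hT hd)

lemma exists_int_model (S : Finset ℝ) : ∃ g : ℝ → ℤ, (∀ a ∈ S, ∀ b ∈ S, g a = g b → a = b) ∧
    ∀ a ∈ S, ∀ b ∈ S, ∀ c ∈ S, ∀ d ∈ S, a + b = c + d → g a + g b = g c + g d := by
  classical
  obtain ⟨f, hf⟩ := Module.exists_dual_forall_apply_ne_zero (K := ℚ) (M := ℝ)
    (ι := S.offDiag) (fun q => q.1.1 - q.1.2) (fun q => by
      have := (mem_offDiag.1 q.2).2.2
      exact sub_ne_zero.2 this)
  set D : ℕ := ∏ x ∈ S, (f x).den with hD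
  have hD0 : (D : ℚ) ≠ 0 := by
    rw [hD]
    exact_mod_cast prod_ne_zero_iff.2 fun x _ => (f x).den_ne_zero
  have hg : ∀ x ∈ S, ((((f x).num * (D / (f x).den : ℕ) : ℤ)) : ℚ) = f x * D := by
    intro x hx
    have hdvd : (f x).den ∣ D := dvd_prod_of_mem _ hx
    have hne : ((f x).den : ℚ) ≠ 0 := by exact_mod_cast (f x).den_ne_zero
    obtain ⟨m, hm⟩ := hdvd
    have h1 : D / (f x).den = m := by
      rw [hm, Nat.mul_div_cancel_left _ (f x).den_pos]
    have h2 : (D : ℚ) = (f x).den * m := by rw [hm]; push_cast; rfl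
    rw [h1, h2, Int.cast_mul, Int.cast_natCast, ← mul_assoc, Rat.mul_den_eq_num]
  refine ⟨fun x => (f x).num * (D / (f x).den : ℕ), ?_, ?_⟩
  · intro a ha b hb hab
    by_contra hne
    have h1 : f a * D = f b * D := by
      rw [← hg a ha, ← hg b hb]
      exact congrArg (fun z : ℤ => (z : ℚ)) hab
    have h2 : f a = f b := mul_right_cancel₀ hD0 h1
    have h3 := hf ⟨(a, b), mem_offDiag.2 ⟨ha, hb, hne⟩⟩
    apply h3
    rw [map_sub, h2, sub_self]
  · intro a ha b hb c hc d hd h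
    have h1 : f a + f b = f c + f d := by rw [← map_add, ← map_add, h]
    have h2 : (((f a).num * (D / (f a).den : ℕ) + (f b).num * (D / (f b).den : ℕ) : ℤ) : ℚ) =
        (((f c).num * (D / (f c).den : ℕ) + (f d).num * (D / (f d).den : ℕ) : ℤ) : ℚ) := by
      rw [Int.cast_add, Int.cast_add, hg a ha, hg b hb, hg c hc, hg d hd]
      linear_combination (D : ℚ) * h1
    exact_mod_cast h2

lemma select (p : ℕ) [hp : Fact p.Prime] (S : Finset ℝ) {α β : ℝ} (hα1 : α ≤ 1)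
    (hβ : 0 ≤ β)
    (hαβ : ∀ x : ℕ, (α + β) * x - β * (x : ℝ) ^ 2 ≤ (if 0 < x then 1 else 0)) :
    ∃ T ⊆ S, DistinctDist T ∧
      ((p : ℝ) - 1) * (α * (S.card / (2 * p * (p - 1))) - β * (S.card / (2 * p * (p - 1)) : ℝ) ^ 2)
        - 1 / 2 ≤ T.card := by
  classical
  obtain ⟨g, hg1, hg2⟩ := exists_int_model S
  set n := S.card with hn
  set B : ℕ := ∑ x ∈ S, 2 * (g x).natAbs + n with hB
  obtain ⟨P, L, hP, hBP, hPL, C, hCcard, hC⟩ := exists_cells p B
  have : Fact P.Prime := ⟨hP⟩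
  have hp1 : 1 < p := hp.out.one_lt
  have hgle : ∀ x ∈ S, 2 * (g x).natAbs ≤ ∑ x ∈ S, 2 * (g x).natAbs := fun x hx =>
    single_le_sum (f := fun x => 2 * (g x).natAbs) (fun _ _ => Nat.zero_le _) hx
  set e := S.equivFin.symm with he
  set u : Fin n → ZMod P := fun i => ((g (e i : ℝ) : ℤ) : ZMod P) with hu
  have huinj : Function.Injective u := by
    intro i j hij
    have h1 : ((g (e i : ℝ) : ℤ) : ZMod P) = ((g (e j : ℝ) : ℤ) : ZMod P) := hij
    rw [← sub_eq_zero, ← Int.cast_sub, ZMod.intCast_zmod_eq_zero_iff_dvd] at h1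
    have h2 : g (e i : ℝ) - g (e j : ℝ) = 0 := by
      refine Int.eq_zero_of_abs_lt_dvd h1 ?_
      have h3 := hgle _ (e i).2
      have h4 := hgle _ (e j).2
      have h5 : |g (e i : ℝ) - g (e j : ℝ)| ≤ |g (e i : ℝ)| + |g (e j : ℝ)| := abs_sub _ _
      rw [Int.abs_eq_natAbs (g (e i : ℝ)), Int.abs_eq_natAbs (g (e j : ℝ))] at h5
      have h6 : ((g (e i : ℝ)).natAbs + (g (e j : ℝ)).natAbs : ℕ) < P := by omega
      have h7 : (((g (e i : ℝ)).natAbs + (g (e j : ℝ)).natAbs : ℕ) : ℤ) < P := by exact_mod_cast h6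
      push_cast at h5 h7 ⊢
      linarith
    have h3 := hg1 _ (e i).2 _ (e j).2 (sub_eq_zero.1 h2)
    exact e.injective (Subtype.ext h3)
  obtain ⟨w, hw⟩ := exists_hits (q := p - 1) (L := L) huinj C hCcard hβ hαβ
  set H : Finset (Fin (p - 1)) := univ.filter fun s => 0 < X u (C s) w with hH
  have hex : ∀ s ∈ H, ∃ i : Fin n, w.1 * u i + w.2 ∈ C s := by
    intro s hs
    rw [hH, mem_filter] at hs
    have h1 := hs.2
    rw [X, card_pos] at h1
    obtain ⟨i, hi⟩ := h1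
    exact ⟨i, (mem_filter.1 hi).2⟩
  choose idx hidx using hex
  set T : Finset ℝ := H.attach.image fun s => ((e (idx s.1 s.2) : S) : ℝ) with hT
  have hself : ∀ s t : Fin (p - 1), ∀ x, x ∈ C s → x ∈ C t → s = t := by
    intro s t x hs ht
    rcases hC s s t t x hs x hs x ht x ht rfl with h | h
    · exact h.1
    · exact h.1
  have hTcard : T.card = H.card := by
    rw [hT, card_image_of_injective, card_attach]
    intro s t hst
    have h1 : idx s.1 s.2 = idx t.1 t.2 := e.injective (Subtype.ext hst)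
    have h2 := hidx s.1 s.2
    have h3 := hidx t.1 t.2
    rw [← h1] at h3
    exact Subtype.ext (hself _ _ _ h2 h3)
  refine ⟨T, ?_, ?_, ?_⟩
  · intro x hx
    rw [hT, mem_image] at hx
    obtain ⟨s, -, rfl⟩ := hx
    exact (e _).2
  · -- distinct distances
    have hcell : ∀ a ∈ T, ∃ s : Fin (p - 1), a ∈ S ∧ w.1 * ((g a : ℤ) : ZMod P) + w.2 ∈ C s := by
      intro a ha
      rw [hT, mem_image] at ha
      obtain ⟨s, -, rfl⟩ := ha
      exact ⟨s.1, (e _).2, hidx s.1 s.2⟩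
    have huniq : ∀ a ∈ T, ∀ b ∈ T, ∀ s, w.1 * ((g a : ℤ) : ZMod P) + w.2 ∈ C s →
        w.1 * ((g b : ℤ) : ZMod P) + w.2 ∈ C s → a = b := by
      intro a ha b hb s has hbs
      rw [hT, mem_image] at ha hb
      obtain ⟨sa, -, rfl⟩ := ha
      obtain ⟨sb, -, rfl⟩ := hb
      have h1 : sa.1 = s := hself _ _ _ (hidx sa.1 sa.2) has
      have h2 : sb.1 = s := hself _ _ _ (hidx sb.1 sb.2) hbs
      have h3 : sa = sb := Subtype.ext (h1.trans h2.symm)
      rw [h3]
    have key : ∀ a ∈ T, ∀ b ∈ T, ∀ c ∈ T, ∀ d ∈ T, a + b = c + d →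
        (a = c ∧ b = d) ∨ (a = d ∧ b = c) := by
      intro a ha b hb c hc d hd h
      obtain ⟨sa, haS, hsa⟩ := hcell a ha
      obtain ⟨sb, hbS, hsb⟩ := hcell b hb
      obtain ⟨sc, hcS, hsc⟩ := hcell c hc
      obtain ⟨sd, hdS, hsd⟩ := hcell d hd
      have h1 := hg2 a haS b hbS c hcS d hdS h
      have h2 : ((g a : ℤ) : ZMod P) + ((g b : ℤ) : ZMod P) =
          ((g c : ℤ) : ZMod P) + ((g d : ℤ) : ZMod P) := by
        rw [← Int.cast_add, ← Int.cast_add, h1]
      rcases hC sa sb sc sd _ hsa _ hsb _ hsc _ hsd (by linear_combination w.1 * h2) with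
        ⟨h3, h4⟩ | ⟨h3, h4⟩
      · left
        exact ⟨huniq a ha c hc sa hsa (h3 ▸ hsc), huniq b hb d hd sb hsb (h4 ▸ hsd)⟩
      · right
        exact ⟨huniq a ha d hd sa hsa (h3 ▸ hsd), huniq b hb c hc sb hsb (h4 ▸ hsc)⟩
    intro a ha b hb c hc d hd hab hcd h
    rcases abs_eq_abs.1 h with h1 | h1
    · rcases key a ha d hd c hc b hb (by linarith) with ⟨h2, h3⟩ | ⟨h2, h3⟩
      · exact Or.inl ⟨h2, h3.symm⟩
      · exact absurd h2 hab
    · rcases key a ha c hc b hb d hd (by linarith) with ⟨h2, h3⟩ | ⟨h2, h3⟩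
      · exact absurd h2 hab
      · exact Or.inr ⟨h2, h3.symm⟩
  · rw [hTcard]
    refine le_trans ?_ hw
    have hpr : (1 : ℝ) < p := by exact_mod_cast hp1
    have hPr : (0 : ℝ) < P := by exact_mod_cast hP.pos
    have hq : ((p - 1 : ℕ) : ℝ) = (p : ℝ) - 1 := by
      rw [Nat.cast_sub hp1.le, Nat.cast_one]
    have hPL' : (P : ℝ) = 2 * (p * (p - 1)) * L + 1 := by
      have := congrArg (fun z : ℕ => (z : ℝ)) hPL
      push_cast [Nat.cast_sub hp1.le] at this
      exact this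
    set μ : ℝ := n / (2 * p * (p - 1)) with hμ
    have hp0 : (0 : ℝ) < p - 1 := by linarith
    have hμ0 : 0 ≤ μ := by rw [hμ]; positivity
    have hx : (n : ℝ) * L / P = μ - μ / P := by
      rw [hμ]
      field_simp
      rw [hPL']
      ring
    have hnP : (n : ℝ) ≤ P := by
      have : n ≤ P := by omega
      exact_mod_cast this
    rw [hq, hx]
    have hδ : 0 ≤ μ / P := by positivity
    have hδμ : μ / P ≤ μ := by
      rw [div_le_iff₀ hPr]
      have : (1 : ℝ) ≤ P := by exact_mod_cast hP.one_lt.le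
      nlinarith
    have h1 : (μ - μ / P) ^ 2 ≤ μ ^ 2 := by
      apply pow_le_pow_left₀ (by linarith)
      linarith
    have h2 : ((p : ℝ) - 1) * (μ / P) ≤ 1 / 2 := by
      have e1 : ((p : ℝ) - 1) * (μ / P) = n / (2 * p * P) := by
        rw [hμ]; field_simp
      rw [e1, div_le_iff₀ (by positivity)]
      nlinarith
    have h3 : α * (((p : ℝ) - 1) * (μ / P)) ≤ 1 * (1 / 2) :=
      mul_le_mul hα1 h2 (by positivity) zero_le_one
    have h4 : ((p : ℝ) - 1) * (β * (μ - μ / P) ^ 2) ≤ ((p : ℝ) - 1) * (β * μ ^ 2) :=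
      mul_le_mul_of_nonneg_left (mul_le_mul_of_nonneg_left h1 hβ) hp0.le
    nlinarith

end Pool.Agent.H54.Sidon
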