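import Pool.Agent.H54.Sidon.Final
import Pool.Agent.H54.Sidon.Prm

set_option autoImplicit false

/-! # Every set of `(27 / 4 + ε) k²` reals has `k` points with distinct distances -/

namespace Pool.Agent.H54.Sidon

open Finset

/-- Selection for one prime `p ≈ x`, `|S| = (4 / 3) x²`. -/
lemma select_near (δ x : ℝ) (hδ : 0 < δ) (p : ℕ) [hp : Fact p.Prime] (S : Finset ℝ)
    (hx : 1 < x) (hS : (S.card : ℝ) = 4 / 3 * x ^ 2) (h1 : x < p) (h2 : (p : ℝ) ≤ (1 + δ) * x) :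
    ∃ T ⊆ S, DistinctDist T ∧
      2 / 3 * x * (1 - δ) - 2 / 9 * (x + 1 + 1 / (x - 1)) - 1 / 2 ≤ T.card := by
  obtain ⟨T, hT, hTd, hTc⟩ := select p S (α := 1) (β := 1 / 2) le_rfl (by norm_num) coef_one
  refine ⟨T, hT, hTd, le_trans ?_ hTc⟩
  have hp0 : (0 : ℝ) < p := by linarith
  have hp1 : (0 : ℝ) < (p : ℝ) - 1 := by linarith
  have hx1 : 0 < x - 1 := by linarith
  have e1 : ((p : ℝ) - 1) * (1 * ((S.card : ℝ) / (2 * p * (p - 1))) - 1 / 2 *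
      ((S.card : ℝ) / (2 * p * (p - 1))) ^ 2) = 2 / 3 * (x ^ 2 / p) -
        2 / 9 * (x ^ 2 / p ^ 2 * (x ^ 2 / (p - 1))) := by
    rw [hS]
    field_simp
    ring
  rw [e1]
  have e2 : x * (1 - δ) ≤ x ^ 2 / p := by
    rw [le_div_iff₀ hp0]
    rcases le_or_gt (1 - δ) 0 with h | h
    · have : x * (1 - δ) * p ≤ 0 := by
        have : 0 ≤ x * p := by positivity
        nlinarith
      nlinarith
    · have h3 : x * (1 - δ) * p ≤ x * (1 - δ) * ((1 + δ) * x) :=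
        mul_le_mul_of_nonneg_left h2 (by positivity)
      nlinarith [sq_nonneg (δ * x)]
  have e3 : x ^ 2 / (p : ℝ) ^ 2 ≤ 1 := by
    rw [div_le_one (by positivity)]
    nlinarith
  have e4 : x ^ 2 / ((p : ℝ) - 1) ≤ x + 1 + 1 / (x - 1) := by
    have h3 : x ^ 2 / ((p : ℝ) - 1) ≤ x ^ 2 / (x - 1) :=
      div_le_div_of_nonneg_left (by positivity) hx1 (by linarith)
    have h4 : x ^ 2 / (x - 1) = x + 1 + 1 / (x - 1) := by
      field_simp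
      ring
    rw [h4] at h3
    exact h3
  have e5 : x ^ 2 / (p : ℝ) ^ 2 * (x ^ 2 / ((p : ℝ) - 1)) ≤ 1 * (x + 1 + 1 / (x - 1)) :=
    mul_le_mul e3 e4 (by positivity) (by norm_num)
  nlinarith

theorem main_sharp (ε : ℝ) (hε : 0 < ε) : ∃ K : ℕ, ∀ k : ℕ, K ≤ k → ∀ S : Finset ℝ,
    (27 / 4 + ε) * (k : ℝ) ^ 2 ≤ S.card → ∃ T ⊆ S, T.card = k ∧ DistinctDist T := by
  -- reduction to `ε ≤ 1`
  wlog hε1 : ε ≤ 1 with H
  · obtain ⟨K, hK⟩ := H 1 one_pos le_rfl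
    refine ⟨K, fun k hk S hS => hK k hk S (le_trans ?_ hS)⟩
    have : (0 : ℝ) ≤ (k : ℝ) ^ 2 := by positivity
    nlinarith
  set γ : ℝ := ε / 50 with hγ
  have hγ0 : 0 < γ := by positivity
  obtain ⟨X, hX⟩ := exists_prime_near γ hγ0 (by linarith)
  refine ⟨max 2 (max ⌈X⌉₊ ⌈2 + 3 / γ⌉₊), fun k hk S hS => ?_⟩
  have hk0 : 2 ≤ k := (le_max_left _ _).trans hk
  have hk1 : X ≤ k := (Nat.le_ceil X).trans
    (by exact_mod_cast ((le_max_left _ _).trans (le_max_right _ _)).trans hk)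
  have hk2 : 2 + 3 / γ ≤ k := (Nat.le_ceil _).trans
    (by exact_mod_cast ((le_max_right _ _).trans (le_max_right _ _)).trans hk)
  have hk0' : (2 : ℝ) ≤ k := by exact_mod_cast hk0
  set x : ℝ := Real.sqrt (3 / 4 * S.card) with hx
  have hx2 : x ^ 2 = 3 / 4 * S.card := Real.sq_sqrt (by positivity)
  have hx0 : 0 ≤ x := Real.sqrt_nonneg _
  have hkx : (k : ℝ) ≤ x := by
    apply Real.le_sqrt_of_sq_le
    nlinarith
  obtain ⟨p, hp, hp1, hp2⟩ := hX x (hk1.trans hkx)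
  have : Fact p.Prime := ⟨hp⟩
  obtain ⟨T, hT, hTd, hTc⟩ := select_near γ x hγ0 p S (by linarith) (by linarith) hp1 hp2
  -- `k ≤ (4 / 9 - γ) x`
  have hkγ : (k : ℝ) ≤ (4 / 9 - γ) * x := by
    have h1 : (27 / 4 + ε) * (k : ℝ) ^ 2 ≤ 4 / 3 * x ^ 2 := by
      rw [hx2]; linarith
    have h2 : 4 / 3 ≤ (27 / 4 + ε) * (4 / 9 - γ) ^ 2 := by
      rw [hγ]
      nlinarith [mul_pos hε hε, mul_nonneg hε.le (sub_nonneg.2 hε1),
        mul_nonneg (mul_pos hε hε).le (sub_nonneg.2 hε1), mul_pos (mul_pos hε hε) hε]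
    have h3 : (27 / 4 + ε) * (k : ℝ) ^ 2 ≤ (27 / 4 + ε) * ((4 / 9 - γ) * x) ^ 2 := by
      have : 4 / 3 * x ^ 2 ≤ (27 / 4 + ε) * (4 / 9 - γ) ^ 2 * x ^ 2 :=
        mul_le_mul_of_nonneg_right h2 (by positivity)
      calc (27 / 4 + ε) * (k : ℝ) ^ 2 ≤ 4 / 3 * x ^ 2 := h1
        _ ≤ (27 / 4 + ε) * (4 / 9 - γ) ^ 2 * x ^ 2 := this
        _ = _ := by ring
    have h4 : (k : ℝ) ^ 2 ≤ ((4 / 9 - γ) * x) ^ 2 :=
      le_of_mul_le_mul_left h3 (by positivity)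
    have h5 : 0 ≤ (4 / 9 - γ) * x := by
      apply mul_nonneg _ hx0
      rw [hγ]; linarith
    exact le_of_sq_le_sq h4 h5
  have hx3 : 2 + 3 / γ ≤ x := hk2.trans hkx
  have hx4 : 3 / γ < x - 1 := by linarith
  have hx5 : 1 / (x - 1) ≤ γ / 3 := by
    rw [div_le_iff₀ (by linarith [div_pos three_pos hγ0])]
    have := (div_lt_iff₀ hγ0).1 hx4
    nlinarith
  have hx6 : 3 ≤ γ * (x - 1) := by
    have := (div_lt_iff₀ hγ0).1 hx4
    nlinarith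
  have hkT : k ≤ T.card := by
    have h1 : (k : ℝ) ≤ T.card := by
      refine le_trans ?_ hTc
      nlinarith
    exact_mod_cast h1
  obtain ⟨T', hT', hT'c⟩ := exists_subset_card_eq hkT
  exact ⟨T', hT'.trans hT, hT'c, hTd.mono hT'⟩

end Pool.Agent.H54.Sidon
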